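import Pool.Agent.N786.E.Uni

/-!
# The size of L-functions of every degree on the critical line: Selberg's central limit theorem

Let `K` be a totally real number field of degree `n`; all `n ≥ 1` are allowed.  A (unitary, normalised)
primitive Hecke character of `K` of conductor `𝔣` and infinity type `ν` (real numbers `ν_w` with
`∑ ν_w = 0`, one for each infinite place `w`; any signs at the real places) is given by its values
on the ideals.  We fix one of them, `ψ`, of conductor `𝔣` and infinity type `ν₀`, and consider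
its products `ψ χ` with all primitive Hecke characters `χ` of conductor `𝔮`, prime to `𝔣`, whose
infinity type is in the box `|ν_w| ≤ V`.  The number of these `χ` is of the order of magnitude
`N(𝔮) V^(n-1)`.  The L-function `L(s, ψ χ) = ∑ ψ(𝔞) χ(𝔞) N(𝔞)^(-s)` is entire, it has degree `n` over
`ℚ`, and its analytic conductor at heights `|t| ≤ T`, `T ≥ V`, `T ≥ |ν₀|`, is at most of the order of
magnitude `C = N(𝔣 𝔮) T^n`.

The Grand Lindelöf Hypothesis says that `|L(1/2 + it, ψ χ)| ≤ B_ε C^ε` for all of them.  We prove,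
without any hypothesis, that for almost all pairs `(χ, t)` in such a family much more is true, and we
determine the law of the size.  Suppose that `N(𝔮) V^n ≥ C^h` with a fixed `h > 1/2`, and that `𝔮` has few
prime divisors of small norm.  Let `t₁` be any real number with `|t₁| ≤ T`, and let `(χ, t)` be chosen
at random, `χ` in the family and `t₁ ≤ t ≤ t₁ + V`.  Then, as `V` tends to infinity, uniformly in all
the other data,

  `log |L(1/2 + it, ψ χ)| / √(½ log log C)`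

has the standard normal law: the probability that `|L(1/2 + it, ψ χ)| ≤ exp(x √(½ log log C))` is
`Φ(x) + o(1)`, uniformly for real `x`.  In particular `(log C)^(-ε) ≤ |L(1/2 + it, ψ χ)| ≤ (log C)^ε` for
every fixed `ε > 0` with probability `1 - o(1)`.

For `n = 1` (the zeta function, Dirichlet L-functions) this is Selberg's theorem.  Here it is proved for
L-functions of every degree.  If `K/ℚ` is cyclic of degree `n`, the L-functions of those `ψ χ` for which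
the components of the infinity type are pairwise different are the standard L-functions of cuspidal
automorphic representations of `GL_n` over `ℚ` (Arthur and Clozel), and totally real cyclic fields
exist in every degree.

Proof.  Let `P(s)` be the sum of `ψ χ(𝔭) N(𝔭)^(-s)` over the prime ideals of norm at most
`C^(c / log log C)`.  On a line `Re s = 1/2 + κ / log C`, `κ` a large constant, the mean squares of
`L(s) exp(-P(s))` and of `M(s) exp(P(s))` are at most a power of `log log C`, where `M` is a mollifier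
and the exponentials are truncated, and the mean square of `L(s) M(s) - 1` is small; hence
`log |L(s)| = Re P(s) + O(log log log C)` with the exception of a small set.  The step to the critical line
is deterministic and costs `O(κ)` on average.  The law of `Re P(s)` is found by a sharp large sieve
inequality for the characters and for windows of the height, for sums over quotients of ideals.
-/

set_option autoImplicit false

open Complex NumberField MeasureTheory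

namespace Pool.Agent.Results.MP_52e316_nt.EveryDegreeCLT

section

variable (K : Type) [Field K] [NumberField K]

/-- `x` is totally positive. -/
def TotPos (x : 𝓞 K) : Prop := ∀ σ : K →+* ℝ, 0 < σ (x : K)

/-- `∏_w |x|_w^(i ν_w)`, the product being over the infinite places of `K`. -/
noncomputable def arch (ν : InfinitePlace K → ℝ) (x : K) : ℂ :=
  Complex.exp (Complex.I * ((∑ w, ν w * Real.log (w x) : ℝ) : ℂ))

/-- `ψ`, as a function on the ideals of the totally real field `K` (zero on the ideals which are not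
prime to `𝔣`), is a primitive unitary Hecke character of finite conductor `𝔣` and infinity type `ν`,
with arbitrary signs at the real places. -/
structure IsHecke (𝔣 : Ideal (𝓞 K)) (ν : InfinitePlace K → ℝ) (ψ : Ideal (𝓞 K) →*₀ ℂ) : Prop where
  ne_bot : 𝔣 ≠ ⊥
  supp : ∀ 𝔞 : Ideal (𝓞 K), 𝔞 ≠ ⊥ → (ψ 𝔞 ≠ 0 ↔ IsCoprime 𝔞 𝔣)
  ray : ∀ x : 𝓞 K, x - 1 ∈ 𝔣 → TotPos K x → ψ (Ideal.span {x}) = arch K ν (x : K)
  prim : ∀ 𝔤 : Ideal (𝓞 K), 𝔤 ∣ 𝔣 → 𝔤 ≠ 𝔣 → ∃ x : 𝓞 K, x - 1 ∈ 𝔤 ∧ TotPos K x ∧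
    IsCoprime (Ideal.span {x}) 𝔣 ∧ ψ (Ideal.span {x}) ≠ arch K ν (x : K)

/-- All primitive Hecke characters of conductor `𝔮` whose infinity type `ν` is normalised by
`∑ ν_w = 0` and lies in the box `|ν_w| ≤ V`. -/
def family (𝔮 : Ideal (𝓞 K)) (V : ℝ) : Set (Ideal (𝓞 K) →*₀ ℂ) :=
  {χ | ∃ ν : InfinitePlace K → ℝ, (∀ w, |ν w| ≤ V) ∧ ∑ w, ν w = 0 ∧ IsHecke K 𝔮 ν χ}

/-- The size `N(𝔣 𝔮) T^n` of the analytic conductor at the height `T`, `n` the degree of `K`. -/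
noncomputable def cond (𝔣 𝔮 : Ideal (𝓞 K)) (T : ℝ) : ℝ :=
  (Ideal.absNorm (𝔣 * 𝔮) : ℝ) * T ^ Module.finrank ℚ K

/-- The size `N(𝔮) V^n` of the family together with a window of length `V`. -/
noncomputable def size (𝔮 : Ideal (𝓞 K)) (V : ℝ) : ℝ :=
  (Ideal.absNorm 𝔮 : ℝ) * V ^ Module.finrank ℚ K

/-- `ψ` is a normalised primitive Hecke character of conductor `𝔣` and infinity type `ν₀`, and `𝔮` is
a non-zero ideal prime to `𝔣`, not both `𝔣` and `𝔮` being `(1)`. -/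
structure Data (𝔣 𝔮 : Ideal (𝓞 K)) (ν₀ : InfinitePlace K → ℝ) (ψ : Ideal (𝓞 K) →*₀ ℂ) : Prop where
  hecke : IsHecke K 𝔣 ν₀ ψ
  normalised : ∑ w, ν₀ w = 0
  coprime : IsCoprime 𝔣 𝔮
  ne_bot : 𝔮 ≠ ⊥
  ne_top : 𝔣 * 𝔮 ≠ ⊤

variable {K}

/-- `F` is the (entire) L-function of `ψ χ`. -/
def IsL (ψ χ : Ideal (𝓞 K) →*₀ ℂ) (F : ℂ → ℂ) : Prop :=
  Differentiable ℂ F ∧ ∀ s : ℂ, 1 < s.re →
    HasSum (fun 𝔞 : Ideal (𝓞 K) => ψ 𝔞 * χ 𝔞 * ((Ideal.absNorm 𝔞 : ℕ) : ℂ) ^ (-s)) (F s)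

/-- The proportion, among all pairs `(χ, t)`, `χ` in the family, `t₁ ≤ t ≤ t₁ + V`, of those for which
`|L χ (1/2 + i t)|` is in the interval `[a, b]`. -/
noncomputable def prop (𝔮 : Ideal (𝓞 K)) (V : ℝ) (L : (Ideal (𝓞 K) →*₀ ℂ) → ℂ → ℂ)
    (t₁ a b : ℝ) : ℝ :=
  (∑ᶠ χ ∈ family K 𝔮 V, (volume {t : ℝ | t₁ ≤ t ∧ t ≤ t₁ + V ∧ a ≤ ‖L χ (1 / 2 + t * I)‖ ∧
    ‖L χ (1 / 2 + t * I)‖ ≤ b}).toReal) / ((family K 𝔮 V).ncard * V)

end

/-- The distribution function of the standard normal law. -/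
noncomputable def Phi (x : ℝ) : ℝ :=
  (√(2 * Real.pi))⁻¹ * ∫ y in Set.Iic x, Real.exp (-(y ^ 2) / 2)

/-- The central limit theorem, with error `ε`, for the families with `V ≥ V₀` and `∑ 1 / N(𝔭) ≤ δ₀`, the
sum being over the prime divisors of `𝔮`, for the exponent `h` (relative size of the family). -/
def CLT (K : Type) [Field K] [NumberField K] (V₀ δ₀ h ε : ℝ) : Prop :=
  ∀ (𝔣 𝔮 : Ideal (𝓞 K)) (ν₀ : InfinitePlace K → ℝ) (ψ : Ideal (𝓞 K) →*₀ ℂ), Data K 𝔣 𝔮 ν₀ ψ →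
    ∑ᶠ 𝔭 ∈ {𝔭 : Ideal (𝓞 K) | 𝔭.IsPrime ∧ 𝔭 ∣ 𝔮}, (1 / (Ideal.absNorm 𝔭 : ℝ)) ≤ δ₀ →
    ∀ V T : ℝ, V₀ ≤ V → V ≤ T → (∀ w, |ν₀ w| ≤ T) → cond K 𝔣 𝔮 T ^ h ≤ size K 𝔮 V →
    (family K 𝔮 V).Finite ∧ (family K 𝔮 V).Nonempty ∧
    ∀ L : (Ideal (𝓞 K) →*₀ ℂ) → ℂ → ℂ, (∀ χ ∈ family K 𝔮 V, IsL ψ χ (L χ)) →
      ∀ t₁ : ℝ, |t₁| ≤ T →
      -- the law of the logarithm of the absolute value
      (∀ x : ℝ, |prop 𝔮 V L t₁ 0
        (Real.exp (x * √(Real.log (Real.log (cond K 𝔣 𝔮 T)) / 2))) - Phi x| ≤ ε) ∧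
      -- the typical size
      1 - ε ≤ prop 𝔮 V L t₁ (Real.log (cond K 𝔣 𝔮 T) ^ (-ε)) (Real.log (cond K 𝔣 𝔮 T) ^ ε)

/-! ### Auxiliary facts -/

section

variable {K : Type} [Field K] [NumberField K]

lemma IsHecke.conv {𝔣 : Ideal (𝓞 K)} {ν : InfinitePlace K → ℝ} {ψ : Ideal (𝓞 K) →*₀ ℂ}
    (h : IsHecke K 𝔣 ν ψ) : Pool.Agent.Y767.IsHecke K 𝔣 ν ψ :=
  ⟨⟨h.ne_bot, h.supp, h.ray⟩, h.prim⟩

lemma family_eq (𝔮 : Ideal (𝓞 K)) (V : ℝ) : family K 𝔮 V = Pool.Agent.Y767.HFam K 𝔮 V := by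
  ext χ
  constructor
  · rintro ⟨ν, a1, a2, a3⟩
    exact ⟨ν, a1, a2, a3.conv⟩
  · rintro ⟨ν, a1, a2, a3⟩
    exact ⟨ν, a1, a2, a3.ne_bot, a3.supp, a3.ray, a3.prim⟩

lemma isL_LI {ψ χ : Ideal (𝓞 K) →*₀ ℂ} {F : ℂ → ℂ} (h : IsL ψ χ F) :
    Differentiable ℂ F ∧ ∀ s : ℂ, 1 < s.re →
      F s = Pool.Agent.Y773.LI (Pool.Agent.N786.pr ψ χ) s :=
  ⟨h.1, fun s hs => (h.2 s hs).tsum_eq.symm⟩

lemma pt_eq (t : ℝ) : Pool.Agent.R399.TW.pt (1 / 2) t = 1 / 2 + t * I := by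
  unfold Pool.Agent.R399.TW.pt
  push_cast
  ring

end

theorem result :
    -- the L-functions
    (∀ (K : Type) [Field K] [NumberField K] [IsTotallyReal K] (𝔣 𝔮 : Ideal (𝓞 K))
      (ν₀ ν : InfinitePlace K → ℝ) (ψ χ : Ideal (𝓞 K) →*₀ ℂ), Data K 𝔣 𝔮 ν₀ ψ →
      IsHecke K 𝔮 ν χ → ∑ w, ν w = 0 → ∃ F : ℂ → ℂ, IsL ψ χ F) ∧
    -- the central limit theorem
    (∀ h ε : ℝ, 1 / 2 < h → h ≤ 1 → 0 < ε →
      ∀ (K : Type) [Field K] [NumberField K] [IsTotallyReal K],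
      ∃ V₀ δ₀ : ℝ, 1 ≤ V₀ ∧ 0 < δ₀ ∧ CLT K V₀ δ₀ h ε) := by
  refine ⟨?_, ?_⟩
  · intro K _ _ _ 𝔣 𝔮 ν₀ ν ψ χ h1 h2 hs2
    have h3 := Pool.Agent.N786.pr_isHecke h1.coprime h1.hecke.conv h2.conv
    have hs : ∑ w, (ν₀ + ν) w = 0 := by
      simp only [Pi.add_apply]
      rw [Finset.sum_add_distrib, h1.normalised, hs2, add_zero]
    obtain ⟨e, F, hF, hFL⟩ := h3.fe hs h1.ne_top
    obtain ⟨e₀, he₀, hM⟩ := h3.toIsHM.isModK hs h1.ne_top
    obtain ⟨A₀, hA₀, hD⟩ := Pool.Agent.Y772.DK.t_dirK K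
    obtain ⟨d1, -⟩ := hD _ hM.norm_le_one
    refine ⟨F, hF.diff, fun s hs => ?_⟩
    rw [hFL s hs]
    exact (d1 s hs).of_norm.hasSum
  · intro h ε hh hh1 hε K _ _ _
    obtain ⟨V₁, δ₁, hV₁, hδ₁, H₁⟩ := Pool.Agent.N786.E.clt_unif K h hh hh1 ε hε
    obtain ⟨V₂, δ₂, R₂, hV₂, hδ₂, H₂⟩ := Pool.Agent.N786.E.lin_fam K h hh hh1 ε hε
    refine ⟨max V₁ (max V₂ (Real.exp R₂)), min δ₁ δ₂, le_max_of_le_left hV₁, lt_min hδ₁ hδ₂, ?_⟩
    intro 𝔣 𝔮 ν₀ ψ hd hp V T hV hVT hν hX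
    have hV1 : V₁ ≤ V := (le_max_left _ _).trans hV
    have hV2 : V₂ ≤ V := ((le_max_left _ _).trans (le_max_right _ _)).trans hV
    have hV3 : Real.exp R₂ ≤ V := ((le_max_right _ _).trans (le_max_right _ _)).trans hV
    have hVpos : 0 < V := by linarith
    -- the L-functions exist
    have hLex : ∀ χ ∈ Pool.Agent.Y767.HFam K 𝔮 V, ∃ F : ℂ → ℂ, IsL ψ χ F := by
      rintro χ ⟨ν, a1, a2, a3⟩
      have h3 := Pool.Agent.N786.pr_isHecke hd.coprime hd.hecke.conv a3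
      have hs : ∑ w, (ν₀ + ν) w = 0 := by
        simp only [Pi.add_apply]
        rw [Finset.sum_add_distrib, hd.normalised, a2, add_zero]
      obtain ⟨e, F, hF, hFL⟩ := h3.fe hs hd.ne_top
      obtain ⟨e₀, he₀, hM⟩ := h3.toIsHM.isModK hs hd.ne_top
      obtain ⟨A₀, hA₀, hD⟩ := Pool.Agent.Y772.DK.t_dirK K
      obtain ⟨d1, -⟩ := hD _ hM.norm_le_one
      refine ⟨F, hF.diff, fun s hs => ?_⟩
      rw [hFL s hs]
      exact (d1 s hs).of_norm.hasSum
    choose! L₀ hL₀ using hLex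
    have hHyp : ∀ L : (Ideal (𝓞 K) →*₀ ℂ) → ℂ → ℂ,
        (∀ χ ∈ Pool.Agent.Y767.HFam K 𝔮 V, IsL ψ χ (L χ)) →
        Pool.Agent.N786.E.Hyp K h V₁ δ₁ 𝔣 𝔮 ν₀ ψ V T L := fun L hL =>
      ⟨hd.hecke.conv, hd.normalised, hd.coprime, hd.ne_bot, hd.ne_top, hp.trans (min_le_left _ _), hV1,
        hVT, hν, hX, fun χ hχ => isL_LI (hL χ hχ)⟩
    obtain ⟨hfin, hcard, -⟩ := H₁ 𝔣 𝔮 ν₀ ψ V T L₀ (hHyp L₀ hL₀)
    have hne : (Pool.Agent.Y767.HFam K 𝔮 V).Nonempty := (Set.ncard_pos hfin).mp hcard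
    unfold prop
    rw [family_eq]
    refine ⟨hfin, hne, ?_⟩
    intro L hL t₁ ht₁
    constructor
    · intro x
      have h1 := (H₁ 𝔣 𝔮 ν₀ ψ V T L (hHyp L hL)).2.2 t₁ ht₁ x
      unfold Pool.Agent.N786.E.DF at h1
      refine le_trans (le_of_eq ?_) h1
      congr 3
      refine finsum_mem_congr rfl fun χ _ => ?_
      unfold Measure.real
      congr 2
      ext t
      simp only [pt_eq]
      constructor
      · rintro ⟨b1, b2, -, b4⟩
        exact ⟨⟨b1, b2⟩, b4⟩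
      · rintro ⟨⟨b1, b2⟩, b4⟩
        exact ⟨b1, b2, norm_nonneg _, b4⟩
    · have hT : 1 ≤ T := by linarith
      have hT0 : V ≤ cond K 𝔣 𝔮 T := by
        have hbot : 𝔣 * 𝔮 ≠ ⊥ := mul_ne_zero hd.hecke.ne_bot hd.ne_bot
        have h1 : (1 : ℝ) ≤ Ideal.absNorm (𝔣 * 𝔮) := Pool.Agent.N786.one_le_norm hbot
        have h2 : T ≤ T ^ Module.finrank ℚ K := by
          calc T = T ^ 1 := (pow_one T).symm
            _ ≤ _ := pow_le_pow_right₀ hT Module.finrank_pos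
        unfold cond
        have h3 : T ^ Module.finrank ℚ K ≤
            (Ideal.absNorm (𝔣 * 𝔮) : ℝ) * T ^ Module.finrank ℚ K :=
          le_mul_of_one_le_left (by positivity) h1
        linarith
      have hR : R₂ ≤ Real.log (cond K 𝔣 𝔮 T) := by
        rw [Real.le_log_iff_exp_le (by linarith)]
        linarith
      have h1 := H₂ 𝔣 𝔮 ν₀ ψ V T hd.hecke.conv hd.normalised hd.coprime hd.ne_bot hd.ne_top
        (hp.trans (min_le_right _ _)) hV2 hVT hν hX hR L (fun χ hχ => isL_LI (hL χ hχ)) t₁ ht₁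
      have hW : 0 < ((Pool.Agent.Y767.HFam K 𝔮 V).ncard : ℝ) * V := by
        have : (0 : ℝ) < ((Pool.Agent.Y767.HFam K 𝔮 V).ncard : ℝ) := by exact_mod_cast hcard
        positivity
      rw [le_div_iff₀ hW]
      rw [finsum_mem_eq_finite_toFinset_sum _ hfin] at h1 ⊢
      rw [Set.ncard_eq_toFinset_card _ hfin] at h1 hW ⊢
      have h2 : (hfin.toFinset.card : ℝ) * V ≤ ∑ χ ∈ hfin.toFinset,
          (volume {t : ℝ | t₁ ≤ t ∧ t ≤ t₁ + V ∧ Real.log (cond K 𝔣 𝔮 T) ^ (-ε) ≤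
            ‖L χ (1 / 2 + t * I)‖ ∧ ‖L χ (1 / 2 + t * I)‖ ≤ Real.log (cond K 𝔣 𝔮 T) ^ ε}).toReal +
          ∑ χ ∈ hfin.toFinset, volume.real {t ∈ Set.Icc t₁ (t₁ + V) |
            ¬ (Real.log ((Ideal.absNorm (𝔣 * 𝔮) : ℝ) * T ^ Module.finrank ℚ K) ^ (-ε) ≤
                ‖L χ (Pool.Agent.R399.TW.pt (1 / 2) t)‖ ∧
              ‖L χ (Pool.Agent.R399.TW.pt (1 / 2) t)‖ ≤
              Real.log ((Ideal.absNorm (𝔣 * 𝔮) : ℝ) * T ^ Module.finrank ℚ K) ^ ε)} := by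
        rw [← Finset.sum_add_distrib, ← nsmul_eq_mul, ← Finset.sum_const]
        refine Finset.sum_le_sum fun χ _ => ?_
        have e1 : volume.real (Set.Icc t₁ (t₁ + V)) = V := by
          rw [measureReal_def, Real.volume_Icc, ENNReal.toReal_ofReal (by linarith)]
          ring
        have hfin1 : ∀ s : Set ℝ, s ⊆ Set.Icc t₁ (t₁ + V) → volume s ≠ ⊤ := fun s hs =>
          ne_of_lt (lt_of_le_of_lt (measure_mono hs) measure_Icc_lt_top)
        conv_lhs => rw [← e1]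
        refine (measureReal_mono ?_ ?_).trans (measureReal_union_le _ _)
        · intro t ht
          by_cases hc : Real.log (cond K 𝔣 𝔮 T) ^ (-ε) ≤
            ‖L χ (1 / 2 + t * I)‖ ∧ ‖L χ (1 / 2 + t * I)‖ ≤ Real.log (cond K 𝔣 𝔮 T) ^ ε
          · exact Or.inl ⟨ht.1, ht.2, hc.1, hc.2⟩
          · refine Or.inr ⟨ht, ?_⟩
            rw [pt_eq]
            exact hc
        · refine hfin1 _ (Set.union_subset ?_ ?_)
          · rintro t ⟨b1, b2, -, -⟩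
            exact ⟨b1, b2⟩
          · rintro t ⟨b1, -⟩
            exact b1
      linarith

end Pool.Agent.Results.MP_52e316_nt.EveryDegreeCLT
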