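import Pool.Agent.N786.F.Fam

/-!
# The moments of L-functions of every degree on the critical line

Let `K` be a totally real number field of degree `n`; all `n ≥ 1` are allowed.  A (unitary, normalised)
primitive Hecke character of `K` of conductor `𝔣` and infinity type `ν` (real numbers `ν_w` with
`∑ ν_w = 0`, one for each infinite place `w`; any signs at the real places) is given by its values
on the ideals.  We fix one of them, `ψ`, of conductor `𝔣` and infinity type `ν₀`, and consider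
its products `ψ χ` with all primitive Hecke characters `χ` of conductor `𝔮`, prime to `𝔣`, whose
infinity type is in the box `|ν_w| ≤ V`.  The number of these `χ` is of the order of magnitude
`N(𝔮) V^(n-1)`.  The L-function `L(s, ψ χ) = ∑ ψ(𝔞) χ(𝔞) N(𝔞)^(-s)` is entire, it has degree `n` over
`ℚ`, and its analytic conductor at heights `|t| ≤ T`, `T ≥ V`, `T ≥ |ν₀|`, is at most of the order of
magnitude `C = N(𝔣 𝔮) T^n`.

The Grand Lindelöf Hypothesis says that `|L(1/2 + it, ψ χ)| ≤ B_ε C^ε` for all of them.  The Riemann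
Hypothesis for these functions would imply that the means of `|L|^(2k)` over large families are at
most of the order of magnitude `(log C)^(k²)`, and this is expected to be the truth.  Suppose that
`N(𝔮) V^n ≥ C^h` with a fixed `h > 1/2`.  We prove, without any hypothesis, for all windows
`t₁ ≤ t ≤ t₁ + V`, `|t₁| ≤ T`, and uniformly for all real `k` with `0 ≤ k ≤ 1`:

  `∑_χ ∫ |L(1/2 + it, ψ χ)|^(2k) dt ≤ A N(𝔮) V^n (log C)^(k²)`,

with a constant `A` which depends only on `K` and `h`.  If `𝔮` has few prime divisors of small norm,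
`∑ 1/N(𝔭) ≤ 1/4`, then the mean value of `|L|^(2k)` over all pairs `(χ, t)` is at most `A (log C)^(k²)`.
It follows that the large values are as rare as the Gaussian law predicts, far beyond the range of
the central limit theorem: for all real `x` with `0 ≤ x ≤ 1` the pairs `(χ, t)` with
`|L(1/2 + it, ψ χ)| ≥ (log C)^x` are at most a part `A (log C)^(-x²)` of all pairs.

For the zeta function (`n = 1`) the bound for the moments, for `0 ≤ 2k ≤ 4`, is a theorem of Heap,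
Radziwill and Soundararajan.  Here it is proved for L-functions of every degree.  If `K/ℚ` is cyclic of
degree `n`, the L-functions of those `ψ χ` for which the components of the infinity type are pairwise
different are the standard L-functions of cuspidal automorphic representations of `GL_n` over `ℚ`
(Arthur and Clozel), and totally real cyclic fields exist in every degree.

Proof.  The primes of norm at most `C^c` are divided into blocks `j`; the norms of the primes of the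
block `j` are between `C^(16^(-j-1))` and `C^(16^(-j))`, with `j` up to about `log log log C`, and let `P_j`
be the sum over the block, on the line `Re s = 1/2 + κ / log C`.  If `|P_j| ≤ 8^j` for all blocks, then
`|L|^(2k) ≤ |L|² ∏ |E_j((k-1) P_j)|² + ∏ |E_j(k P_j)|²` up to a constant, with truncated exponential
series `E_j`; otherwise the same is used for the blocks after the last exceptional block `v`,
multiplied by a high power of `P_v / 8^v`.  The mean squares of these products are found by the large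
sieve inequality on the line `Re s = 1/2 + κ / log C`, and by a convexity argument with the functional
equation on the critical line; no approximate functional equation is used.
-/

set_option autoImplicit false

open Complex NumberField MeasureTheory

namespace Pool.Agent.Results.MP_52e316_nt.EveryDegreeMoments

section

variable (K : Type) [Field K] [NumberField K]

/-- `x` is totally positive. -/
def TotPos (x : 𝓞 K) : Prop := ∀ σ : K →+* ℝ, 0 < σ (x : K)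

/-- `∏_w |x|_w^(i ν_w)`, the product being over the infinite places of `K`. -/
noncomputable def arch (ν : InfinitePlace K → ℝ) (x : K) : ℂ :=
  Complex.exp (Complex.I * ((∑ w, ν w * Real.log (w x) : ℝ) : ℂ))

/-- `ψ`, as a function on the ideals of the totally real field `K` (zero on the ideals which are not
prime to `𝔣`), is a primitive unitary Hecke character of finite conductor `𝔣` and infinity type `ν`,
with arbitrary signs at the real places. -/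
structure IsHecke (𝔣 : Ideal (𝓞 K)) (ν : InfinitePlace K → ℝ) (ψ : Ideal (𝓞 K) →*₀ ℂ) : Prop where
  ne_bot : 𝔣 ≠ ⊥
  supp : ∀ 𝔞 : Ideal (𝓞 K), 𝔞 ≠ ⊥ → (ψ 𝔞 ≠ 0 ↔ IsCoprime 𝔞 𝔣)
  ray : ∀ x : 𝓞 K, x - 1 ∈ 𝔣 → TotPos K x → ψ (Ideal.span {x}) = arch K ν (x : K)
  prim : ∀ 𝔤 : Ideal (𝓞 K), 𝔤 ∣ 𝔣 → 𝔤 ≠ 𝔣 → ∃ x : 𝓞 K, x - 1 ∈ 𝔤 ∧ TotPos K x ∧
    IsCoprime (Ideal.span {x}) 𝔣 ∧ ψ (Ideal.span {x}) ≠ arch K ν (x : K)

/-- All primitive Hecke characters of conductor `𝔮` whose infinity type `ν` is normalised by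
`∑ ν_w = 0` and lies in the box `|ν_w| ≤ V`. -/
def family (𝔮 : Ideal (𝓞 K)) (V : ℝ) : Set (Ideal (𝓞 K) →*₀ ℂ) :=
  {χ | ∃ ν : InfinitePlace K → ℝ, (∀ w, |ν w| ≤ V) ∧ ∑ w, ν w = 0 ∧ IsHecke K 𝔮 ν χ}

/-- The size `N(𝔣 𝔮) T^n` of the analytic conductor at the height `T`, `n` the degree of `K`. -/
noncomputable def cond (𝔣 𝔮 : Ideal (𝓞 K)) (T : ℝ) : ℝ :=
  (Ideal.absNorm (𝔣 * 𝔮) : ℝ) * T ^ Module.finrank ℚ K

/-- The size `N(𝔮) V^n` of the family together with a window of length `V`. -/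
noncomputable def size (𝔮 : Ideal (𝓞 K)) (V : ℝ) : ℝ :=
  (Ideal.absNorm 𝔮 : ℝ) * V ^ Module.finrank ℚ K

/-- `ψ` is a normalised primitive Hecke character of conductor `𝔣` and infinity type `ν₀`, and `𝔮` is
a non-zero ideal prime to `𝔣`, not both `𝔣` and `𝔮` being `(1)`. -/
structure Data (𝔣 𝔮 : Ideal (𝓞 K)) (ν₀ : InfinitePlace K → ℝ) (ψ : Ideal (𝓞 K) →*₀ ℂ) : Prop where
  hecke : IsHecke K 𝔣 ν₀ ψ
  normalised : ∑ w, ν₀ w = 0
  coprime : IsCoprime 𝔣 𝔮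
  ne_bot : 𝔮 ≠ ⊥
  ne_top : 𝔣 * 𝔮 ≠ ⊤

variable {K}

/-- `F` is the (entire) L-function of `ψ χ`. -/
def IsL (ψ χ : Ideal (𝓞 K) →*₀ ℂ) (F : ℂ → ℂ) : Prop :=
  Differentiable ℂ F ∧ ∀ s : ℂ, 1 < s.re →
    HasSum (fun 𝔞 : Ideal (𝓞 K) => ψ 𝔞 * χ 𝔞 * ((Ideal.absNorm 𝔞 : ℕ) : ℂ) ^ (-s)) (F s)

/-- The sum over `χ` in the family of the integrals of `|L χ (1/2 + i t)|^(2k)`, `t₁ ≤ t ≤ t₁ + V`. -/
noncomputable def total (𝔮 : Ideal (𝓞 K)) (V : ℝ) (L : (Ideal (𝓞 K) →*₀ ℂ) → ℂ → ℂ)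
    (t₁ k : ℝ) : ℝ :=
  ∑ᶠ χ ∈ family K 𝔮 V, ∫ t in t₁..(t₁ + V), ‖L χ (1 / 2 + t * I)‖ ^ (2 * k)

/-- The mean value of `|L χ (1/2 + i t)|^(2k)` over all pairs `(χ, t)`, `χ` in the family,
`t₁ ≤ t ≤ t₁ + V`. -/
noncomputable def mean (𝔮 : Ideal (𝓞 K)) (V : ℝ) (L : (Ideal (𝓞 K) →*₀ ℂ) → ℂ → ℂ)
    (t₁ k : ℝ) : ℝ := total 𝔮 V L t₁ k / ((family K 𝔮 V).ncard * V)

/-- The proportion, among all pairs `(χ, t)`, `χ` in the family, `t₁ ≤ t ≤ t₁ + V`, of those for which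
`|L χ (1/2 + i t)|` is at least `a`. -/
noncomputable def large (𝔮 : Ideal (𝓞 K)) (V : ℝ) (L : (Ideal (𝓞 K) →*₀ ℂ) → ℂ → ℂ)
    (t₁ a : ℝ) : ℝ :=
  (∑ᶠ χ ∈ family K 𝔮 V, (volume {t : ℝ | t₁ ≤ t ∧ t ≤ t₁ + V ∧ a ≤ ‖L χ (1 / 2 + t * I)‖}).toReal) /
    ((family K 𝔮 V).ncard * V)

end

/-- The bounds for the moments, with the constant `A`, for the families with `V ≥ V₀`, for the
exponent `h` (relative size of the family). -/
def Moments (K : Type) [Field K] [NumberField K] (V₀ A h : ℝ) : Prop :=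
  ∀ (𝔣 𝔮 : Ideal (𝓞 K)) (ν₀ : InfinitePlace K → ℝ) (ψ : Ideal (𝓞 K) →*₀ ℂ), Data K 𝔣 𝔮 ν₀ ψ →
    ∀ V T : ℝ, V₀ ≤ V → V ≤ T → (∀ w, |ν₀ w| ≤ T) → cond K 𝔣 𝔮 T ^ h ≤ size K 𝔮 V →
    (family K 𝔮 V).Finite ∧
    ∀ L : (Ideal (𝓞 K) →*₀ ℂ) → ℂ → ℂ, (∀ χ ∈ family K 𝔮 V, IsL ψ χ (L χ)) →
      ∀ t₁ : ℝ, |t₁| ≤ T →
      -- the moments
      (∀ k : ℝ, 0 ≤ k → k ≤ 1 →
        total 𝔮 V L t₁ k ≤ A * size K 𝔮 V * Real.log (cond K 𝔣 𝔮 T) ^ (k ^ 2)) ∧
      -- the mean values and the large values, if `𝔮` has few prime divisors of small norm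
      (∑ᶠ 𝔭 ∈ {𝔭 : Ideal (𝓞 K) | 𝔭.IsPrime ∧ 𝔭 ∣ 𝔮}, (1 / (Ideal.absNorm 𝔭 : ℝ)) ≤ 1 / 4 →
        (family K 𝔮 V).Nonempty ∧
        (∀ k : ℝ, 0 ≤ k → k ≤ 1 →
          mean 𝔮 V L t₁ k ≤ A * Real.log (cond K 𝔣 𝔮 T) ^ (k ^ 2)) ∧
        ∀ x : ℝ, 0 ≤ x → x ≤ 1 →
          large 𝔮 V L t₁ (Real.log (cond K 𝔣 𝔮 T) ^ x) ≤
            A * Real.log (cond K 𝔣 𝔮 T) ^ (-(x ^ 2)))

/-! ### Auxiliary facts -/

section

variable {K : Type} [Field K] [NumberField K]

lemma IsHecke.conv {𝔣 : Ideal (𝓞 K)} {ν : InfinitePlace K → ℝ} {ψ : Ideal (𝓞 K) →*₀ ℂ}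
    (h : IsHecke K 𝔣 ν ψ) : Pool.Agent.Y767.IsHecke K 𝔣 ν ψ :=
  ⟨⟨h.ne_bot, h.supp, h.ray⟩, h.prim⟩

lemma family_eq (𝔮 : Ideal (𝓞 K)) (V : ℝ) : family K 𝔮 V = Pool.Agent.Y767.HFam K 𝔮 V := by
  ext χ
  constructor
  · rintro ⟨ν, a1, a2, a3⟩
    exact ⟨ν, a1, a2, a3.conv⟩
  · rintro ⟨ν, a1, a2, a3⟩
    exact ⟨ν, a1, a2, a3.ne_bot, a3.supp, a3.ray, a3.prim⟩

lemma isL_LI {ψ χ : Ideal (𝓞 K) →*₀ ℂ} {F : ℂ → ℂ} (h : IsL ψ χ F) :
    Differentiable ℂ F ∧ ∀ s : ℂ, 1 < s.re →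
      F s = Pool.Agent.Y773.LI (Pool.Agent.N786.pr ψ χ) s :=
  ⟨h.1, fun s hs => (h.2 s hs).tsum_eq.symm⟩

lemma pt_eq (t : ℝ) : Pool.Agent.R399.TW.pt (1 / 2) t = 1 / 2 + t * I := by
  unfold Pool.Agent.R399.TW.pt
  push_cast
  ring

end

theorem result :
    -- the L-functions
    (∀ (K : Type) [Field K] [NumberField K] [IsTotallyReal K] (𝔣 𝔮 : Ideal (𝓞 K))
      (ν₀ ν : InfinitePlace K → ℝ) (ψ χ : Ideal (𝓞 K) →*₀ ℂ), Data K 𝔣 𝔮 ν₀ ψ →
      IsHecke K 𝔮 ν χ → ∑ w, ν w = 0 → ∃ F : ℂ → ℂ, IsL ψ χ F) ∧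
    -- the moments
    (∀ h : ℝ, 1 / 2 < h → h ≤ 1 → ∀ (K : Type) [Field K] [NumberField K] [IsTotallyReal K],
      ∃ V₀ A : ℝ, 1 ≤ V₀ ∧ Moments K V₀ A h) := by
  have hLall : ∀ (K : Type) [Field K] [NumberField K] [IsTotallyReal K] (𝔣 𝔮 : Ideal (𝓞 K))
      (ν₀ ν : InfinitePlace K → ℝ) (ψ χ : Ideal (𝓞 K) →*₀ ℂ), Data K 𝔣 𝔮 ν₀ ψ →
      IsHecke K 𝔮 ν χ → ∑ w, ν w = 0 → ∃ F : ℂ → ℂ, IsL ψ χ F := by
    intro K _ _ _ 𝔣 𝔮 ν₀ ν ψ χ h1 h2 hs2
    have h3 := Pool.Agent.N786.pr_isHecke h1.coprime h1.hecke.conv h2.conv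
    have hs : ∑ w, (ν₀ + ν) w = 0 := by
      simp only [Pi.add_apply]
      rw [Finset.sum_add_distrib, h1.normalised, hs2, add_zero]
    obtain ⟨e, F, hF, hFL⟩ := h3.fe hs h1.ne_top
    obtain ⟨e₀, he₀, hM⟩ := h3.toIsHM.isModK hs h1.ne_top
    obtain ⟨A₀, hA₀, hD⟩ := Pool.Agent.Y772.DK.t_dirK K
    obtain ⟨d1, -⟩ := hD _ hM.norm_le_one
    refine ⟨F, hF.diff, fun s hs => ?_⟩
    rw [hFL s hs]
    exact (d1 s hs).of_norm.hasSum
  refine ⟨hLall, ?_⟩
  intro h hh hh1 K _ _ _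
  obtain ⟨V₁, R₁, C, hV₁, hC, H₁⟩ := Pool.Agent.N786.F.mom_fam K h hh hh1
  obtain ⟨c, V₂, hc, hV₂, hsize⟩ := Pool.Agent.N786.D.fam_size K
  refine ⟨max V₁ (max V₂ (Real.exp (max R₁ 1))), max C (C / c), le_max_of_le_left hV₁, ?_⟩
  intro 𝔣 𝔮 ν₀ ψ hd V T hV hVT hν hX
  have hV1 : V₁ ≤ V := (le_max_left _ _).trans hV
  have hV2 : V₂ ≤ V := ((le_max_left _ _).trans (le_max_right _ _)).trans hV
  have hV3 : Real.exp (max R₁ 1) ≤ V := ((le_max_right _ _).trans (le_max_right _ _)).trans hV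
  have hV1' : 1 ≤ V := hV₁.trans hV1
  have hVpos : 0 < V := by linarith
  have hT : 1 ≤ T := by linarith
  have hbot : 𝔣 * 𝔮 ≠ ⊥ := mul_ne_zero hd.hecke.ne_bot hd.ne_bot
  have hT0 : V ≤ cond K 𝔣 𝔮 T := by
    have h1 : (1 : ℝ) ≤ Ideal.absNorm (𝔣 * 𝔮) := Pool.Agent.N786.one_le_norm hbot
    have h2 : T ≤ T ^ Module.finrank ℚ K := by
      calc T = T ^ 1 := (pow_one T).symm
        _ ≤ _ := pow_le_pow_right₀ hT Module.finrank_pos
    unfold cond
    have h3 : T ^ Module.finrank ℚ K ≤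
        (Ideal.absNorm (𝔣 * 𝔮) : ℝ) * T ^ Module.finrank ℚ K :=
      le_mul_of_one_le_left (by positivity) h1
    linarith
  obtain ⟨R, hRd⟩ : ∃ R : ℝ, R = Real.log (cond K 𝔣 𝔮 T) := ⟨_, rfl⟩
  have hRmax : max R₁ 1 ≤ R := by
    rw [hRd, Real.le_log_iff_exp_le (by linarith)]
    linarith
  have hR₁ : R₁ ≤ R := (le_max_left _ _).trans hRmax
  have hR1 : 1 ≤ R := (le_max_right _ _).trans hRmax
  have hR0 : 0 < R := by linarith
  -- the L-functions exist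
  have hLex : ∀ χ ∈ family K 𝔮 V, ∃ F : ℂ → ℂ, IsL ψ χ F := by
    rintro χ ⟨ν, a1, a2, a3⟩
    exact hLall K 𝔣 𝔮 ν₀ ν ψ χ hd a3 a2
  choose! L₀ hL₀ using hLex
  have hfam := family_eq (K := K) 𝔮 V
  have hsz : size K 𝔮 V = (Ideal.absNorm 𝔮 : ℝ) * V ^ Module.finrank ℚ K := rfl
  have hsz0 : 0 ≤ size K 𝔮 V := by rw [hsz]; positivity
  have hcall : ∀ (S : Finset (Ideal (𝓞 K) →*₀ ℂ)), (∀ χ ∈ S, χ ∈ family K 𝔮 V) →
      ∀ L : (Ideal (𝓞 K) →*₀ ℂ) → ℂ → ℂ, (∀ χ ∈ S, IsL ψ χ (L χ)) →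
      (S.card : ℝ) * V ≤ C * size K 𝔮 V ∧ ∀ t₁ : ℝ, |t₁| ≤ T → ∀ k : ℝ, 0 ≤ k → k ≤ 1 →
      ∑ χ ∈ S, ∫ t in t₁..(t₁ + V), ‖L χ (1 / 2 + t * I)‖ ^ (2 * k) ≤
        C * size K 𝔮 V * R ^ (k ^ 2) := by
    intro S hS L hL
    have h1 := H₁ 𝔣 𝔮 ν₀ ψ V T hd.hecke.conv hd.normalised hd.coprime hd.ne_bot hd.ne_top hV1 hVT hν hX
      (by rw [hRd] at hR₁; exact hR₁) S (fun χ hχ => by rw [← hfam]; exact hS χ hχ) L
      (fun χ hχ => isL_LI (hL χ hχ))
    refine ⟨h1.1, fun t₁ ht₁ k hk0 hk1 => ?_⟩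
    have h2 := h1.2 t₁ ht₁ k hk0 hk1
    simp only [pt_eq] at h2
    rw [hRd]
    exact h2
  have hfin : (family K 𝔮 V).Finite := by
    refine Pool.Agent.N786.D.finite_of_card (B := C * size K 𝔮 V) fun S hS => ?_
    have h1 := (hcall S hS L₀ fun χ hχ => hL₀ χ (hS χ hχ)).1
    have h2 : (S.card : ℝ) ≤ S.card * V := le_mul_of_one_le_right (Nat.cast_nonneg _) hV1'
    linarith
  refine ⟨hfin, ?_⟩
  intro L hL t₁ ht₁
  rw [← hRd]
  have hmom : ∀ k : ℝ, 0 ≤ k → k ≤ 1 → total 𝔮 V L t₁ k ≤ C * size K 𝔮 V * R ^ (k ^ 2) := by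
    intro k hk0 hk1
    unfold total
    rw [finsum_mem_eq_finite_toFinset_sum _ hfin]
    exact (hcall hfin.toFinset (fun χ hχ => by rwa [Set.Finite.mem_toFinset] at hχ) L
      (fun χ hχ => hL χ (by rwa [Set.Finite.mem_toFinset] at hχ))).2 t₁ ht₁ k hk0 hk1
  constructor
  · intro k hk0 hk1
    refine (hmom k hk0 hk1).trans ?_
    have h1 : C ≤ max C (C / c) := le_max_left _ _
    have h2 : 0 ≤ R ^ (k ^ 2) := Real.rpow_nonneg hR0.le _
    gcongr
  · intro hfew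
    obtain ⟨-, hcard⟩ := hsize 𝔣 𝔮 hd.coprime hd.ne_top hbot V hV2 hfew
    rw [← hfam, ← hsz] at hcard
    have hNq : (1 : ℝ) ≤ (Ideal.absNorm 𝔮 : ℝ) := Pool.Agent.N786.one_le_norm hd.ne_bot
    have hszp : 0 < size K 𝔮 V := by rw [hsz]; positivity
    have hW : 0 < ((family K 𝔮 V).ncard : ℝ) * V := lt_of_lt_of_le (by positivity) hcard
    have hncard : 0 < (family K 𝔮 V).ncard := by
      by_contra hcon
      have h1 : (family K 𝔮 V).ncard = 0 := by omega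
      rw [h1] at hW
      simp at hW
    have hmean : ∀ k : ℝ, 0 ≤ k → k ≤ 1 → mean 𝔮 V L t₁ k ≤ C / c * R ^ (k ^ 2) := by
      intro k hk0 hk1
      unfold mean
      rw [div_le_iff₀ hW]
      refine (hmom k hk0 hk1).trans ?_
      have h2 : 0 ≤ R ^ (k ^ 2) := Real.rpow_nonneg hR0.le _
      have h3 : C * size K 𝔮 V = C / c * (c * size K 𝔮 V) := by field_simp
      rw [h3]
      calc C / c * (c * size K 𝔮 V) * R ^ (k ^ 2) ≤
          C / c * (((family K 𝔮 V).ncard : ℝ) * V) * R ^ (k ^ 2) := by gcongr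
        _ = _ := by ring
    refine ⟨(Set.ncard_pos hfin).mp hncard, fun k hk0 hk1 => ?_, fun x hx0 hx1 => ?_⟩
    · refine (hmean k hk0 hk1).trans ?_
      have h1 : C / c ≤ max C (C / c) := le_max_right _ _
      have h2 : 0 ≤ R ^ (k ^ 2) := Real.rpow_nonneg hR0.le _
      gcongr
    · have h1 := hmean x hx0 hx1
      have hRx : 0 < R ^ x := Real.rpow_pos_of_pos hR0 _
      have hcheb : (R ^ x) ^ (2 * x) * large 𝔮 V L t₁ (R ^ x) ≤ mean 𝔮 V L t₁ x := by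
        unfold large mean total
        rw [mul_div_assoc']
        refine div_le_div_of_nonneg_right ?_ hW.le
        rw [finsum_mem_eq_finite_toFinset_sum _ hfin, finsum_mem_eq_finite_toFinset_sum _ hfin,
          Finset.mul_sum]
        refine Finset.sum_le_sum fun χ hχ => ?_
        have hLc : Continuous (L χ) := (hL χ (by rwa [Set.Finite.mem_toFinset] at hχ)).1.continuous
        have hfc : Continuous fun t : ℝ => ‖L χ (1 / 2 + t * I)‖ := by fun_prop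
        have hfc2 : Continuous fun t : ℝ => ‖L χ (1 / 2 + t * I)‖ ^ (2 * x) :=
          hfc.rpow_const fun t => Or.inr (by positivity)
        obtain ⟨B, hB⟩ : ∃ B : Set ℝ, B = {t : ℝ | t₁ ≤ t ∧ t ≤ t₁ + V ∧
          R ^ x ≤ ‖L χ (1 / 2 + t * I)‖} := ⟨_, rfl⟩
        have hBsub : B ⊆ Set.Icc t₁ (t₁ + V) := by
          rw [hB]
          rintro t ⟨b1, b2, -⟩
          exact ⟨b1, b2⟩
        have hBm : MeasurableSet B := by
          have : B = Set.Icc t₁ (t₁ + V) ∩ {t | R ^ x ≤ ‖L χ (1 / 2 + t * I)‖} := by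
            rw [hB]
            ext t
            constructor
            · rintro ⟨b1, b2, b3⟩
              exact ⟨⟨b1, b2⟩, b3⟩
            · rintro ⟨⟨b1, b2⟩, b3⟩
              exact ⟨b1, b2, b3⟩
          rw [this]
          exact measurableSet_Icc.inter (measurableSet_le measurable_const hfc.measurable)
        have hBfin : volume B ≠ ⊤ := ne_of_lt (lt_of_le_of_lt (measure_mono hBsub) measure_Icc_lt_top)
        rw [← hB]
        have e1 : (R ^ x) ^ (2 * x) * (volume B).toReal = ∫ _t in B, (R ^ x) ^ (2 * x) := by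
          rw [setIntegral_const, smul_eq_mul, mul_comm]
          rfl
        rw [e1, intervalIntegral.integral_of_le (by linarith), ← integral_Icc_eq_integral_Ioc]
        calc ∫ _t in B, (R ^ x) ^ (2 * x) ≤ ∫ t in B, ‖L χ (1 / 2 + t * I)‖ ^ (2 * x) := by
              refine setIntegral_mono_on ?_ (hfc2.integrableOn_Icc.mono_set hBsub) hBm fun t ht => ?_
              · exact integrableOn_const hBfin
              · refine Real.rpow_le_rpow hRx.le ?_ (by positivity)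
                rw [hB] at ht
                exact ht.2.2
          _ ≤ ∫ t in Set.Icc t₁ (t₁ + V), ‖L χ (1 / 2 + t * I)‖ ^ (2 * x) := by
              refine setIntegral_mono_set hfc2.integrableOn_Icc ?_ hBsub.eventuallyLE
              exact Filter.Eventually.of_forall fun t => by positivity
      have h2 := hcheb.trans h1
      have e2 : (R ^ x) ^ (2 * x) = R ^ (2 * x ^ 2) := by
        rw [← Real.rpow_mul hR0.le]
        congr 1
        ring
      rw [e2, ← le_div_iff₀' (Real.rpow_pos_of_pos hR0 _), mul_div_assoc,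
        ← Real.rpow_sub hR0] at h2
      have e3 : x ^ 2 - 2 * x ^ 2 = -(x ^ 2) := by ring
      rw [e3] at h2
      refine h2.trans ?_
      have h4 : C / c ≤ max C (C / c) := le_max_right _ _
      have h5 : 0 ≤ R ^ (-(x ^ 2)) := Real.rpow_nonneg hR0.le _
      gcongr

end Pool.Agent.Results.MP_52e316_nt.EveryDegreeMoments
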