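import Mathlib
import Pool.Agent.N846.ZD.Main2

/-!
# The Lindelöf bound in `Re s ≥ 3/4` and an exponent below `1/8` on the critical line, for almost all `π` on `GL(n)`

Let `K` be a number field, `n ≥ 1`, `E(σ) = 2 (1 - σ) / max(1, 4 σ - 2)` for `1/2 < σ ≤ 1` (this is `dens (σ - 1/2)`). The theorem
counts, in **every** family of pairwise different unitary cuspidal automorphic representations `π_f` of `GL_n` over `K` (any
levels, any archimedean types), the members whose `L`-function `L(s) = L(s, π_f × π'~)` has an exceptional value. Here `π'` is a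
fixed unitary cuspidal representation of `GL_{n'}`; the trivial representation of `GL_1` gives the standard `L`-functions.

1. Let `C` bound the analytic conductors of `L(s, π_f × π'~)` at `i Im s_f`, `Q` those of the pairs `L(s, π_f × π_g~)` at
   `i (Im s_f - Im s_g)`, `f = g` included, `Q'` that of `L(s, π' × π'~)`, and let `G = C Q Q'` be large in terms of `K`, `n`, `n'`,
   `σ`, `ε`. If for every `f ∈ T` either `Re s_f ≥ σ` and **not** `G^{-ε} ≤ |L(s_f)| ≤ G^ε` (for instance `L(s_f) = 0`), or
   `σ ≤ 3/4`, `1 - σ ≤ Re s_f ≤ σ` and `|L(s_f)| > G^ε C^{(σ - Re s_f)/2}`, then `T` is finite and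
   `|T| ≤ G^ε Q^{E(σ)} C^{(1 - σ)/σ}`.
2. In a universal family, with `C(π)` the conductor of `L(s, π × π'~)` and conductors of the pairs at most `B (C(π_f) C(π_g))^n`
   (for standard `L`-functions this is known, with `B` depending on `K` and `n`, from the bound of Bushnell and Henniart): for
   large `X` there is an exceptional set with at most `X^{2 n E(σ) + (1 - σ)/σ + ε}` elements such that all other `π` with
   `C(π) ≤ X` satisfy, for all `s` with `|Im s| ≤ X^c`, `c > 0`,

   * `X^{-ε} ≤ |L(s)| ≤ X^ε` if `Re s ≥ σ`,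
   * `|L(s)| ≤ X^{(σ - Re s)/2 + ε}` if `1 - σ ≤ Re s ≤ σ ≤ 3/4`.
3. For `σ = 3/4 - 1/(6n + 4)` the exponent in 2. is smaller than `n + 1`.

There are about `X^{n + 1}` unitary cuspidal `π` on `GL_n` with `C(π) ≤ X` (Brumley, Milićević). So **for 100 per cent of all
unitary cuspidal representations of `GL_n`, ordered by conductor, the full Lindelöf bound `|L(s, π)| ≤ C(π)^ε` and the lower
bound `|L(s, π)| ≥ C(π)^{-ε}` hold in `Re s ≥ 3/4 - 1/(6n + 4)`, `|Im s| ≤ C(π)^c`, and on the critical line
`|L(1/2 + it, π)| ≤ C(π)^{1/8 - 1/(12n + 8) + ε}`** (the convexity bound has the exponents `(1 - Re s)/2` and `1/4`), with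
exceptions at most `X^{n + 1 - c'}`. For every `δ > 0` at most `X^{ε'}` of them, `ε' → 0` as `σ → 1`, violate the Lindelöf bound
in `Re s ≥ σ`. On the critical line this is better than `C(π)^{1/8 - 1/(16n + 8) + ε}`, which follows from the moments in
`MomentsInFamilies`; the present theorem is about a whole half plane and is not a consequence of bounds for moments: it gives
lower bounds too, i.e. there are no zeros. Earlier zero density theorems for families of `GL(n)` which are not
given by a trace formula are due to Kowalski and Michel (2002: for families of one archimedean type, assuming that the Satake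
parameters are at most `p^θ` with `θ < 1/4`, which is not known for `n ≥ 3`; exponent `(5n/2 + d)(1 - σ)/(2σ - 1)` for
`σ ≥ 3/4`, if `X^d` members have conductor `≤ X`), and, without such assumptions, to Brumley, Thorner and Zaman, Humphries
and Thorner, with exponents like `6.15 n^4 (1 - σ)`, which say something about 100 per cent of all `π` only for
`Re s > 1 - c/n³` and give `|L(1/2, π)| ≤ C(π)^{1/4 - c/n³}` or so for almost all `π`. (These results are log-free, i.e. better
at the edge. For `n = 1` and for families given by trace formulas on `GL(2)` more is known.) Nothing is assumed on the size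
of the family or towards the Ramanujan conjecture.

The structure `GLFamily` lists what is used on the pairs `π_f × π_g~`, `Twists` what is used on `π_f × π'~`; all of it is known
for unitary cuspidal representations with central characters trivial on the positive reals (Jacquet, Piatetski-Shapiro,
Shalika; Moeglin, Waldspurger), for `n' = 1` (for `n' > 1` the field `re_gt` of `Twists`, `Re μ_j > -1/2`, is an assumption on the
archimedean components). The numbers `u(v, k, j)` are the normalised coefficients of `log L(s, π × π~)`, a vector for every `π`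
(of any degree) such that the coefficients of `log L(s, π × π'~)` are the scalar products.

The proof. A zero density theorem: `L(s, π_f × π'~)` times a truncated inverse of length `G^ε` has the coefficients `1` at the
ideal `1` and `0` at the other ideals up to this length; shifting the smoothed sum at a zero `ρ_f` to `Re s = -ε`, where the
trivial bound of the functional equation is used, shows that a Dirichlet polynomial of length `C^{1/(2σ) + ε}` without these
terms is at least `1/4` at `ρ_f`. It is split into short blocks, and a bounded power of one of them, supported beyond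
`Q^{min(1, 1/(4σ - 2))}`, is large for many `f`. All these polynomials are linear functionals of the vectors `exp(u_f)` in the
Fock space of `u`, and the Gram matrix of these vectors, localised to the block, has off-diagonal elements
`≪ Q^{1/2 + σ₀ + ε} Y^{-σ₀}` for every `σ₀ > 0`: the `L`-functions of the pairs to the left of the critical strip. Duality
(Halász, Montgomery) with `σ₀ → 0` or `σ₀ → ∞` gives the bound. The members without zeros in `Re s ≥ σ - η` close to the
point: `log L` is at most `ε log G` in `Re s ≥ 5/4` (Rankin and Selberg; no Ramanujan conjecture), its real part is at most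
`A log G` where there are no zeros (convexity, Phragmén and Lindelöf), so it is at most `ε' log G` in `Re s ≥ σ` by Borel,
Carathéodory and Hadamard's three circles. The functional equation and the three lines theorem give the critical strip.
-/

set_option autoImplicit false

namespace Pool.Agent.Results.MP_52e316_nt.LindelofForAlmostAll

open Complex NumberField IsDedekindDomain
open Pool.Agent.N846.DT (dens)
open Pool.Agent.N846.DU (GLFamily VX)
open Pool.Agent.N846.LM (Twists)
open Pool.Agent.N846.ZD (val_both val_univ pow moll blockS dtc lft dia cvx tc tl chh expo)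

/-- **Almost all cuspidal representations of `GL(n)` satisfy the Lindelöf bound in `Re s ≥ 3/4`.** -/
theorem result (K : Type) [Field K] [NumberField K] (n N n' N' N'' : ℕ) {ε σ : ℝ} (hε : 0 < ε) (hσ : 1 / 2 < σ)
    (hσ1 : σ ≤ 1) :
    (∃ A : ℝ, 1 ≤ A ∧
      ∀ (ι : Type) (S : ι → Finset (HeightOneSpectrum (𝓞 K)))
        (α : ι → HeightOneSpectrum (𝓞 K) → Fin n → ℂ) (u : ι → VX K → ℂ) (q : ι → ι → ℝ) (κ : ι → ι → Fin N → ℂ)
        (S' : Finset (HeightOneSpectrum (𝓞 K))) (α' : HeightOneSpectrum (𝓞 K) → Fin n' → ℂ) (w : VX K → ℂ) (q' : ℝ)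
        (κ' : Fin N'' → ℂ) (qs : ι → ℝ) (μ : ι → Fin N' → ℂ) (L : ι → ℂ → ℂ),
        GLFamily n N S α u q κ → Twists n' N' N'' u S' α' w q' κ' qs μ L →
        ∀ (T : Set ι) (s : ι → ℂ) (C Q Q' : ℝ), 1 ≤ C → 1 ≤ Q → q' * ∏ j, (1 + ‖κ' j‖) ≤ Q' → A ≤ C * Q * Q' →
          (∀ f ∈ T, qs f * ∏ j, (1 + ‖μ f j + (s f).im * I‖) ≤ C) →
          (∀ f ∈ T, ∀ g ∈ T, q f g * ∏ j, (1 + ‖κ f g j + ((s f).im - (s g).im) * I‖) ≤ Q) →
          (∀ f ∈ T,
            (σ ≤ (s f).re ∧ ¬((C * Q * Q') ^ (-ε) ≤ ‖L f (s f)‖ ∧ ‖L f (s f)‖ ≤ (C * Q * Q') ^ ε)) ∨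
            (σ ≤ 3 / 4 ∧ 1 - σ ≤ (s f).re ∧ (s f).re ≤ σ ∧
              (C * Q * Q') ^ ε * C ^ ((σ - (s f).re) / 2) < ‖L f (s f)‖)) →
          T.Finite ∧ (T.ncard : ℝ) ≤ (C * Q * Q') ^ ε * Q ^ dens (σ - 1 / 2) * C ^ ((1 - σ) / σ)) ∧
    (∀ B Q' : ℝ, 1 ≤ B → 1 ≤ Q' → ∃ A c : ℝ, 1 ≤ A ∧ 0 < c ∧
      ∀ (ι : Type) (S : ι → Finset (HeightOneSpectrum (𝓞 K)))
        (α : ι → HeightOneSpectrum (𝓞 K) → Fin n → ℂ) (u : ι → VX K → ℂ) (q : ι → ι → ℝ) (κ : ι → ι → Fin N → ℂ)
        (S' : Finset (HeightOneSpectrum (𝓞 K))) (α' : HeightOneSpectrum (𝓞 K) → Fin n' → ℂ) (w : VX K → ℂ) (q' : ℝ)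
        (κ' : Fin N'' → ℂ) (qs : ι → ℝ) (μ : ι → Fin N' → ℂ) (L : ι → ℂ → ℂ) (C : ι → ℝ),
        GLFamily n N S α u q κ → Twists n' N' N'' u S' α' w q' κ' qs μ L → q' * ∏ j, (1 + ‖κ' j‖) ≤ Q' →
        (∀ f, qs f * ∏ j, (1 + ‖μ f j‖) ≤ C f) →
        (∀ f g, q f g * ∏ j, (1 + ‖κ f g j‖) ≤ B * (C f * C g) ^ n) →
        ∀ X : ℝ, A ≤ X → ∃ E : Set ι, E.Finite ∧
          (E.ncard : ℝ) ≤ X ^ (2 * n * dens (σ - 1 / 2) + (1 - σ) / σ + ε) ∧
          ∀ f, C f ≤ X → f ∉ E → ∀ s : ℂ, |s.im| ≤ X ^ c →
            (σ ≤ s.re → X ^ (-ε) ≤ ‖L f s‖ ∧ ‖L f s‖ ≤ X ^ ε) ∧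
            (σ ≤ 3 / 4 → 1 - σ ≤ s.re → s.re ≤ σ → ‖L f s‖ ≤ X ^ ((σ - s.re) / 2 + ε))) ∧
    (1 ≤ n → 2 * n * dens ((3 / 4 - 1 / (6 * n + 4)) - 1 / 2) +
      (1 - (3 / 4 - 1 / (6 * n + 4))) / (3 / 4 - 1 / (6 * n + 4)) < (n : ℝ) + 1) :=
  ⟨val_both pow moll blockS dtc lft dia cvx tc tl chh K n N n' N' N'' hε hσ hσ1,
    fun B Q' hB hQ' => val_univ pow moll blockS dtc lft dia cvx tc tl chh K n N n' N' N'' hε hσ hσ1 B Q' hB hQ',
    expo n⟩

end Pool.Agent.Results.MP_52e316_nt.LindelofForAlmostAll
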