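import Mathlib
import Pool.Agent.N846.LM.Main
import Pool.Agent.N846.LM.Gams
import Pool.Agent.N846.LM.Gi
import Pool.Agent.N846.LM.Chi
import Pool.Agent.N846.LM.Ww
import Pool.Agent.N846.LM.Gram
import Pool.Agent.N846.LM.Ls
import Pool.Agent.N846.LM.Afe
import Pool.Agent.N846.DU.Left
import Pool.Agent.N846.DU.Gam
import Pool.Agent.N846.DU.Diag

/-!
# Moments of every order and large values of `L`-functions on `GL(n)` in arbitrary families

Let `K` be a number field, `k, n ≥ 1`. The theorem bounds the `2k`-th moment at the central line of the `L`-functions of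
**every** family of pairwise different unitary cuspidal automorphic representations `π_f` of `GL_n` over `K` (any levels, any
archimedean types, any choice of the ordinates `t_f`), twisted by a fixed unitary cuspidal representation `π'` of `GL_{n'}`
(the trivial representation of `GL_1` gives the standard `L`-functions):

1. `∑_{f ∈ T} |L(1/2 + i t_f, π_f × π'~)|^{2k} ≤ A (C Q Q')^ε (C^{k/2} + |T| Q^{1/2})`, with `A` depending on `K`, `n`, `n'`, `k`
   and `ε` only, if `C` bounds the analytic conductors of `L(s, π_f × π'~)` at `1/2 + i t_f`, `Q` those of the pairs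
   `L(s, π_f × π_g~)` at `i (t_f - t_g)`, `f = g` included, and `Q'` that of `L(s, π' × π'~)`. The convexity bound
   `|L| ≤ C^{1/4 + ε}` gives `|T| C^{k/2}`. So at most `C^{2kδ + ε}` members violate `|L| ≤ C^{1/4 - δ}`, if `Q ≤ C^{k(1 - 4δ) - ε'}`.
2. In a universal family, with `C(π)` the conductor of `L(s, π × π'~)` and conductors of the pairs at most `B (C(π_f) C(π_g))^n`
   (for standard `L`-functions this is known, with `B` depending on `K` and `n`, from the bound of Bushnell and Henniart): for
   every integer `k` and `v > n/(2k)` the `π` with `C(π) ≤ X` and `|L(1/2 + it, π)| ≥ X^v` for some `|t| ≤ X^c`, `c > 0`, are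
   finite in number and at most `X^{(k/2)(1 - 4v) + ε}`.

There are about `X^{n + 1}` unitary cuspidal `π` on `GL_n` with `C(π) ≤ X` (Brumley, Milićević). With `k = 4n + 2` in 2. we see:
**the bound `|L(1/2 + it, π)| ≤ C(π)^{n/(8n+4) + ε}`, an exponent smaller than `1/8`, in place of the exponent `1/4` of the
convexity bound, holds for all `|t| ≤ C(π)^c` for 100 per cent of all unitary cuspidal representations of `GL_n`, ordered by
conductor**, with exceptions at most `X^{n + 1 - c'}`. With `k = 2n + 1` we see that at most `X^{(4n + 2) δ + ε}` of them violate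
`|L(1/2 + it, π)| ≤ X^{1/4 - δ}`, for `δ < 1/(8n+4)`. (Known, from zero density theorems: the exponent `1/4 - δ` with a very
small `δ` outside a small set of exceptions, Thorner and Zaman, Humphries and Thorner; moments of low order for some full families of
level one or prime level by trace formulas.) We know of no earlier bound for the high moments in families of `GL(n)`, `n ≥ 3`, which
is better than convexity. Nothing is assumed on the size of the family or towards the Ramanujan conjecture.

The structure `GLFamily` lists what is used on the pairs `π_f × π_g~`, `Twists` what is used on `π_f × π'~`; all of it is known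
for unitary cuspidal representations with central characters trivial on the positive reals, for `n' = 1` (Jacquet,
Piatetski-Shapiro, Shalika; Moeglin, Waldspurger). The numbers `u(v, k, j)` are the normalised coefficients of
`log L(s, π × π~)`, a vector for every `π` (of any degree) such that the coefficients of `log L(s, π × π'~)` are the scalar
products. For `n' > 1` the field `re_gt` of `Twists` is an assumption on the archimedean components, true if they are tempered.

The proof: the coefficients of `L(s, π × π'~)^k = exp ⟨u_π, k w⟩` are scalar products in the Fock space of `u`, where all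
powers of all `π_f` are linear functionals of the same vectors `exp(u_f)`; so a single large sieve inequality by duality
handles every `k`. Its Gram matrix is given by `L(s, π_f × π_g~)` at `Re s < 0`, so the off-diagonal elements are at most
`Q^{1/2 + ε}` (they are the size of the `L`-functions to the left of the critical strip, and the weight is chosen to have
its poles far to the left), and the diagonal is the length `C^{k/2}` of the approximate functional equation, proved here for
all `k` from the functional equation alone.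
-/

set_option autoImplicit false

namespace Pool.Agent.Results.MP_52e316_nt.MomentsInFamilies

open Complex NumberField IsDedekindDomain
open Pool.Agent.N846.DU (GLFamily VX)
open Pool.Agent.N846.LM (Twists)

/-- **Moments of every order and large values of `L`-functions in arbitrary families on `GL(n)` over a number field.** -/
theorem result (K : Type) [Field K] [NumberField K] (n N n' N' N'' k : ℕ) (hk : 1 ≤ k) {ε : ℝ} (hε : 0 < ε) :
    (∃ A : ℝ, 0 < A ∧
      ∀ (ι : Type) (S : ι → Finset (HeightOneSpectrum (𝓞 K)))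
        (α : ι → HeightOneSpectrum (𝓞 K) → Fin n → ℂ) (u : ι → VX K → ℂ) (q : ι → ι → ℝ) (κ : ι → ι → Fin N → ℂ)
        (S' : Finset (HeightOneSpectrum (𝓞 K))) (α' : HeightOneSpectrum (𝓞 K) → Fin n' → ℂ) (w : VX K → ℂ) (q' : ℝ)
        (κ' : Fin N'' → ℂ) (qs : ι → ℝ) (μ : ι → Fin N' → ℂ) (L : ι → ℂ → ℂ),
        GLFamily n N S α u q κ → Twists n' N' N'' u S' α' w q' κ' qs μ L →
        ∀ (T : Finset ι) (t : ι → ℝ) (C Q Q' : ℝ), 1 ≤ C → 1 ≤ Q → q' * ∏ j, (1 + ‖κ' j‖) ≤ Q' →
          (∀ f ∈ T, qs f * ∏ j, (1 + ‖μ f j + (1 / 2 + t f * I)‖) ≤ C) →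
          (∀ f ∈ T, ∀ g ∈ T, q f g * ∏ j, (1 + ‖κ f g j + (t f - t g) * I‖) ≤ Q) →
          ∑ f ∈ T, ‖L f (1 / 2 + t f * I)‖ ^ (2 * k) ≤
            A * (C * Q * Q') ^ ε * (C ^ ((k : ℝ) / 2) + T.card * Q ^ (1 / 2 : ℝ))) ∧
    (∀ v B Q' : ℝ, (n : ℝ) / (2 * k) < v → 1 ≤ B → 1 ≤ Q' → ∃ A c : ℝ, 1 ≤ A ∧ 0 < c ∧
      ∀ (ι : Type) (S : ι → Finset (HeightOneSpectrum (𝓞 K)))
        (α : ι → HeightOneSpectrum (𝓞 K) → Fin n → ℂ) (u : ι → VX K → ℂ) (q : ι → ι → ℝ) (κ : ι → ι → Fin N → ℂ)
        (S' : Finset (HeightOneSpectrum (𝓞 K))) (α' : HeightOneSpectrum (𝓞 K) → Fin n' → ℂ) (w : VX K → ℂ) (q' : ℝ)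
        (κ' : Fin N'' → ℂ) (qs : ι → ℝ) (μ : ι → Fin N' → ℂ) (L : ι → ℂ → ℂ) (C : ι → ℝ),
        GLFamily n N S α u q κ → Twists n' N' N'' u S' α' w q' κ' qs μ L → q' * ∏ j, (1 + ‖κ' j‖) ≤ Q' →
        (∀ f, qs f * ∏ j, (1 + ‖μ f j‖) ≤ C f) →
        (∀ f g, q f g * ∏ j, (1 + ‖κ f g j‖) ≤ B * (C f * C g) ^ n) →
        ∀ X : ℝ, A ≤ X →
          {f | C f ≤ X ∧ ∃ t : ℝ, |t| ≤ X ^ c ∧ X ^ v ≤ ‖L f (1 / 2 + t * I)‖}.Finite ∧
          ({f | C f ≤ X ∧ ∃ t : ℝ, |t| ≤ X ^ c ∧ X ^ v ≤ ‖L f (1 / 2 + t * I)‖}.ncard : ℝ) ≤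
            X ^ ((k : ℝ) / 2 * (1 - 4 * v) + ε)) := by
  have hC := Pool.Agent.N846.LM.chi Pool.Agent.N846.LM.gams Pool.Agent.N846.LM.gi
  have hG := Pool.Agent.N846.LM.gram
  have hL := Pool.Agent.N846.DU.left Pool.Agent.N846.DU.gam
  exact ⟨Pool.Agent.N846.LM.moment_all (Pool.Agent.N846.LM.afe2 hC) Pool.Agent.N846.LM.ls Pool.Agent.N846.LM.ww
      (hG Pool.Agent.N846.LM.ww) hL (Pool.Agent.N846.DU.diag hL) K n N n' N' N'' k hk hε,
    fun v B Q' hv hB hQ' => Pool.Agent.N846.LM.large_all (Pool.Agent.N846.LM.afe2 hC) Pool.Agent.N846.LM.ls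
      Pool.Agent.N846.LM.ww (hG Pool.Agent.N846.LM.ww) hL (Pool.Agent.N846.DU.diag hL) K n N n' N' N'' k hk hε hv B Q'
      hB hQ'⟩

end Pool.Agent.Results.MP_52e316_nt.MomentsInFamilies
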